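import Mathlib
import Pool.Agent.MP_c3fbfc_co.GMain

/-! Almost every matroid has an `N`-minor for every sparse paving matroid `N` whose
circuit-hyperplanes, except two, form a coloured family with private points. -/

namespace Pool.Agent.Results.MP_c3fbfc_co.ColouredHyperplanes

open Pool.Agent.MP_c3fbfc_co

theorem result {β : Type*} (N : Matroid β) (hE : N.E.Finite) (h : Paving N)
    (h' : Paving N.dual) (hc : Coloured N ∨ Coloured N.dual) : AlmostAllHaveMinor N :=
  V.G.main N hE h h' hc

end Pool.Agent.Results.MP_c3fbfc_co.ColouredHyperplanes
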