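import Mathlib
import Pool.Agent.MP_c3fbfc_co.VMain

/-! Almost every matroid has an `N`-minor for every sparse paving matroid `N` with at most five
circuit-hyperplanes; this includes the Vamos matroid and the cycle matroid of the complete graph
on four vertices. -/

namespace Pool.Agent.Results.MP_c3fbfc_co.FiveHyperplanes

open Pool.Agent.MP_c3fbfc_co

theorem result {β : Type*} (N : Matroid β) (hE : N.E.Finite) (h : Paving N)
    (h' : Paving N.dual) (h5 : {A : Set β | N.Dep A ∧ A.encard = N.eRank}.encard ≤ 5) :
    AlmostAllHaveMinor N :=
  V.link V.fin_all (V.out V.cont (V.code V.cont)) V.sym_all V.five N hE h h' h5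

end Pool.Agent.Results.MP_c3fbfc_co.FiveHyperplanes
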