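import Mathlib
import Pool.Agent.MP_c3fbfc_co.Main

/-! Almost every matroid has an `N`-minor for every sparse paving matroid `N` of rank or corank
at most 3 whose circuit-hyperplanes are spread out; this includes the whirl of rank 3. -/

namespace Pool.Agent.Results.MP_c3fbfc_co.WhirlMinor

open Pool.Agent.MP_c3fbfc_co

theorem result {β : Type*} (N : Matroid β) (hE : N.E.Finite) (h : Paving N)
    (h' : Paving N.dual) (g : FewLines N ∨ FewLines N.dual) : AlmostAllHaveMinor N := by
  refine almostAll_of (g.imp (fewBad_of_fewLines hE h h') (fewBad_of_fewLines hE h' ?_))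
  rwa [Matroid.dual_dual]

end Pool.Agent.Results.MP_c3fbfc_co.WhirlMinor
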